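import Pool.Agent.H.MP_93e790_lc.D

/-! Densest k-Subgraph parameterized by modular-width is W[1]-hard. -/

namespace Pool.Agent.Results.MP_93e790_lc.W1
open Pool.Agent.Lib.CX Pool.Agent.H.MP_93e790_lc

theorem result :
    (∃ R : Gr × ℕ → Gr × ℕ × ℕ, PT R ∧ ∀ a, (Clique a ↔ Dense (R a)) ∧ mw (R a).1.G ≤ 2 * (a.2 * a.2)) ∧
    (FPT Dense (fun b => mw b.1.G) → FPT Clique fun a => a.2) :=
  ⟨⟨RR, pt_RR, RR_spec⟩, FPT.red (g := fun k => 2 * (k * k)) pt_RR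
    (Primrec.nat_mul.comp (Primrec.const 2) (Primrec.nat_mul.comp Primrec.id Primrec.id)).to_comp
    (fun a => (RR_spec a).1) fun a => (RR_spec a).2⟩

end Pool.Agent.Results.MP_93e790_lc.W1
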